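import Pool.Agent.V5helper35.AS.Stm

/-!
# Project AS, part 2: from subgroups of `Out (F_m)` to their preimages in `Aut (F_m)`
-/

set_option autoImplicit false

namespace Pool.Agent.V5helper91.AS

open Pool.Agent.R387.TC Pool.Agent.N77.CS Pool.Agent.V5helper35.AS

theorem t_FROM : Pool.Agent.V5helper35.AS.S_FROM := by
  intro m hm A hA
  obtain ⟨n, rfl⟩ : ∃ n, m = n + 1 := ⟨m - 1, by omega⟩
  have i0 : Fin n := ⟨0, by omega⟩
  set π : MulAut (F (n + 1)) →* MulAut (F (n + 1)) ⧸ (MulAut.conj (G := F (n + 1))).range :=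
    QuotientGroup.mk' (MulAut.conj (G := F (n + 1))).range with hπ
  set G : Subgroup (MulAut (F (n + 1))) := A.comap π with hG
  have hconj : ∀ g : F (n + 1), MulAut.conj g ∈ G := by
    intro g
    have h1 : π (MulAut.conj g) = 1 := (QuotientGroup.eq_one_iff _).2 ⟨g, rfl⟩
    show π (MulAut.conj g) ∈ A
    rw [h1]
    exact A.one_mem
  refine ⟨by omega, ?_, ⊤, norm_top _ _, fun h _ => hconj h⟩
  intro V hVG hV
  have hV' : (V.subgroupOf G).FiniteIndex := ⟨hV⟩
  set N : Subgroup G := (V.subgroupOf G).normalCore with hN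
  have hNV : ∀ v : G, v ∈ N → (v : MulAut (F (n + 1))) ∈ V := fun v hv =>
    Subgroup.mem_subgroupOf.1 (Subgroup.normalCore_le _ hv)
  have hNfi : N.FiniteIndex := inferInstance
  have hNn : N.Normal := inferInstance
  let c : F (n + 1) →* G := (MulAut.conj : F (n + 1) →* MulAut (F (n + 1))).codRestrict G hconj
  have hMfi : (N.comap c).FiniteIndex := fi_comap _ _
  obtain ⟨M2, hc2, hf2, hM2⟩ := centre i0 (N.comap c)
  have hT := trivSub_fin M2
  let T : Subgroup G := (trivSub M2).comap G.subtype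
  have hTf : T.FiniteIndex := fi_comap _ _
  let N2 : Subgroup G := N ⊓ T
  have hN2f : N2.FiniteIndex := inferInstance
  let B := (N2.map G.subtype).map π
  have hBA : B ≤ A := by
    rintro _ ⟨_, ⟨v, _, rfl⟩, rfl⟩
    exact v.2
  have hBi : B.relIndex A ≠ 0 := by
    let ρ : G →* A := (π.comp G.subtype).codRestrict A (fun v => v.2)
    have hρ : Function.Surjective ρ := by
      rintro ⟨a, ha⟩
      obtain ⟨b, rfl⟩ := QuotientGroup.mk_surjective a
      exact ⟨⟨b, ha⟩, rfl⟩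
    have h1 : (N2.map ρ).FiniteIndex :=
      ⟨ne_zero_of_dvd_ne_zero hN2f.index_ne_zero (Subgroup.index_map_dvd N2 hρ)⟩
    have h2 : N2.map ρ ≤ B.subgroupOf A := by
      rintro _ ⟨v, hv, rfl⟩
      exact ⟨v, ⟨v, hv, rfl⟩, rfl⟩
    exact (Subgroup.finiteIndex_of_le h2).index_ne_zero
  obtain ⟨K, hcK, hfK, hK⟩ := hA B hBA hBi
  have hcKM : (K ⊓ M2).Characteristic := by
    rw [Subgroup.characteristic_iff_le_comap] at hcK hc2 ⊢
    intro φ x hx
    exact ⟨hcK φ hx.1, hc2 φ hx.2⟩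
  refine ⟨K ⊓ M2, hcKM, inferInstance, ?_⟩
  intro ψ hψG hψ
  obtain ⟨_, ⟨v, hv, rfl⟩, hvψ⟩ := hK ψ hψG ⟨1, fun x => by simpa using (hψ x).1⟩
  have hvψ' : ((v : MulAut (F (n + 1))) : MulAut (F (n + 1)) ⧸ (MulAut.conj (G := F (n + 1))).range) =
      (ψ : MulAut (F (n + 1)) ⧸ (MulAut.conj (G := F (n + 1))).range) := hvψ
  obtain ⟨g, hg⟩ := QuotientGroup.eq.1 hvψ'
  have hg' : MulAut.conj g = (v : MulAut (F (n + 1)))⁻¹ * ψ := hg
  have h2 : MulAut.conj g ∈ trivSub M2 := by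
    rw [hg']
    have h3 : (v : MulAut (F (n + 1))) ∈ trivSub M2 := hv.2
    have h4 : ψ ∈ trivSub M2 := fun x => (hψ x).2
    exact (trivSub M2).mul_mem ((trivSub M2).inv_mem h3) h4
  have h5 : g ∈ N.comap c := hM2 g (fun x => by
    have := h2 x
    rwa [MulAut.conj_apply] at this)
  have h6 : MulAut.conj g ∈ V := hNV (c g) h5
  have h7 : (v : MulAut (F (n + 1))) ∈ V := hNV v hv.1
  have h8 : ψ = (v : MulAut (F (n + 1))) * MulAut.conj g := by
    rw [hg', mul_inv_cancel_left]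
  rw [h8]
  exact V.mul_mem h7 h6

end Pool.Agent.V5helper91.AS
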