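import Pool.Agent.V5helper35.AS.StmA

/-!
# Project AS, part 3: the amalgam
-/

set_option autoImplicit false

namespace Pool.Agent.V5helper91.AS.Ama

open Pool.Agent.R387.TC Pool.Agent.N77.CS Pool.Agent.N77.CS.ASM Pool.Agent.V5helper35.AS

section

variable {k : ℕ} {l : ℕ} {w : F k}

theorem ew_inc (y : F l) : ew l w (inc l y) = iB k l y := homExt_inc _ _ _

theorem ew_tt : ew l w (tt l) = iA k l w := homExt_tt _ _

/-- the endomorphism extending `τ` -/
def Ee (l : ℕ) (w : F k) (τ : MulAut (F (l + 1))) : F (k + l) →* F (k + l) :=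
  hAB (iA k l) ((ew l w).comp (τ.toMonoidHom.comp (inc l)))

theorem Ee_A (τ : MulAut (F (l + 1))) (x : F k) : Ee l w τ (iA k l x) = iA k l x := hAB_A _ _ _

theorem Ee_B (τ : MulAut (F (l + 1))) (y : F l) : Ee l w τ (iB k l y) = ew l w (τ (inc l y)) :=
  hAB_B _ _ _

theorem Ee_ew {τ : MulAut (F (l + 1))} (hτ : τ (tt l) = tt l) (x : F (l + 1)) :
    Ee l w τ (ew l w x) = ew l w (τ x) := by
  have h : (Ee l w τ).comp (ew l w) = (ew l w).comp τ.toMonoidHom := by
    apply hom_ext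
    · intro y
      show Ee l w τ (ew l w (inc l y)) = ew l w (τ (inc l y))
      rw [ew_inc, Ee_B]
    · show Ee l w τ (ew l w (tt l)) = ew l w (τ (tt l))
      rw [hτ, ew_tt, Ee_A]
  exact DFunLike.congr_fun h x

/-- the homomorphism `D → Aut` -/
def PE (l : ℕ) (w : F k) (D : Subgroup (MulAut (F (l + 1)))) (hD : ∀ τ ∈ D, τ (tt l) = tt l) :
    D →* MulAut (F (k + l)) :=
  autOf (fun τ => Ee l w τ.1)
    (by
      apply ext_AB
      · intro x
        rw [Ee_A]
        rfl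
      · intro y
        rw [Ee_B]
        show ew l w (inc l y) = _
        rw [ew_inc]
        rfl)
    (by
      intro σ τ
      apply ext_AB
      · intro x
        rw [Ee_A, MonoidHom.comp_apply, Ee_A, Ee_A]
      · intro y
        rw [Ee_B, MonoidHom.comp_apply, Ee_B, Ee_ew (hD _ σ.2)]
        rfl)

theorem PE_apply (D : Subgroup (MulAut (F (l + 1)))) (hD : ∀ τ ∈ D, τ (tt l) = tt l) (τ : D)
    (x : F (k + l)) : PE l w D hD τ x = Ee l w τ.1 x := autOf_apply _ _ _ _ _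

theorem PE_A (D : Subgroup (MulAut (F (l + 1)))) (hD : ∀ τ ∈ D, τ (tt l) = tt l) (τ : D) (x : F k) :
    PE l w D hD τ (iA k l x) = iA k l x := by
  rw [PE_apply, Ee_A]

theorem PE_ew (D : Subgroup (MulAut (F (l + 1)))) (hD : ∀ τ ∈ D, τ (tt l) = tt l) (τ : D)
    (x : F (l + 1)) : PE l w D hD τ (ew l w x) = ew l w (τ.1 x) := by
  rw [PE_apply, Ee_ew (hD _ τ.2)]

theorem PA_ew {σ : MulAut (F k)} (hσ : σ w = w) (x : F (l + 1)) :
    PA k l σ (ew l w x) = ew l w x := by
  have h : (PA k l σ).toMonoidHom.comp (ew l w) = ew l w := by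
    apply hom_ext
    · intro y
      show PA k l σ (ew l w (inc l y)) = ew l w (inc l y)
      rw [ew_inc, PA_B]
    · show PA k l σ (ew l w (tt l)) = ew l w (tt l)
      rw [ew_tt, PA_A, hσ]
  exact DFunLike.congr_fun h x

/-- the retraction -/
def rt (k l : ℕ) : F (k + l) →* F k := hAB (MonoidHom.id _) 1

theorem rt_A (x : F k) : rt k l (iA k l x) = x := hAB_A _ _ _

theorem notPow_iA (hw : NotPow w) : NotPow (iA k l w) := by
  refine ⟨fun h => hw.1 ?_, fun v j h => hw.2 (rt k l v) j ?_⟩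
  · have h1 := congrArg (rt k l) h
    rwa [rt_A, map_one] at h1
  · have h1 := congrArg (rt k l) h
    rwa [rt_A, map_zpow] at h1

end

theorem map_rel {G : Type} [Group G] (C : Subgroup G) (H : Subgroup C) [hH : H.FiniteIndex] :
    (H.map C.subtype).relIndex C ≠ 0 := by
  have h : H ≤ (H.map C.subtype).subgroupOf C := by
    intro x hx
    exact ⟨x, hx, rfl⟩
  exact (Subgroup.finiteIndex_of_le h).index_ne_zero

theorem t_AMA (hGAD : Pool.Agent.V5helper35.AS.S_GAD) (hCW : Pool.Agent.V5helper35.AS.S_CW) :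
    Pool.Agent.V5helper35.AS.S_AMA := by
  intro k l C D w P hk hw hC hD hCw hDt hcC hcD hP
  have hPA : ∀ σ : C, PA k l σ.1 ∈ P := fun σ => (hP _).2 ⟨σ.1, σ.2, 1, D.one_mem,
    fun x => PA_A _ _, fun y => by rw [PA_ew (hCw _ σ.2)]; rfl⟩
  have hPE : ∀ τ : D, PE l w D hDt τ ∈ P := fun τ => (hP _).2 ⟨1, C.one_mem, τ.1, τ.2,
    fun x => by rw [PE_A]; rfl, fun y => PE_ew _ _ _ _⟩
  have hdec : ∀ φ σ (τ : D), σ ∈ C → (∀ x, φ (iA k l x) = iA k l (σ x)) →
      (∀ y, φ (ew l w y) = ew l w (τ.1 y)) → φ = PA k l σ * PE l w D hDt τ := by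
    intro φ σ τ hσ h1 h2
    apply mulAut_ext_AB
    · intro x
      rw [h1, MulAut.mul_apply, PE_A, PA_A]
    · intro y
      have h3 := h2 (inc l y)
      rw [ew_inc] at h3
      have h4 : PE l w D hDt τ (iB k l y) = ew l w (τ.1 (inc l y)) := by
        rw [← PE_ew D hDt τ (inc l y), ew_inc]
      rw [h3, MulAut.mul_apply, h4, PA_ew (hCw _ hσ)]
  refine ⟨by omega, ?_, Subgroup.zpowers (iA k l w), ?_, ?_⟩
  · intro V hVP hV
    have hV' : (V.subgroupOf P).FiniteIndex := ⟨hV⟩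
    set N : Subgroup P := (V.subgroupOf P).normalCore with hN
    have hNV : ∀ v : P, v ∈ N → (v : MulAut (F (k + l))) ∈ V := fun v hv =>
      Subgroup.mem_subgroupOf.1 (Subgroup.normalCore_le _ hv)
    have hNfi : N.FiniteIndex := inferInstance
    have hNn : N.Normal := inferInstance
    let pA : C →* P := ((PA k l).comp C.subtype).codRestrict P (fun σ => hPA σ)
    let pE : D →* P := (PE l w D hDt).codRestrict P (fun τ => hPE τ)
    have hfA : (N.comap pA).FiniteIndex := fi_comap _ _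
    have hfE : (N.comap pE).FiniteIndex := fi_comap _ _
    obtain ⟨KA, hcA, hKAf, hKA⟩ := hC ((N.comap pA).map C.subtype) (Subgroup.map_subtype_le _)
      (map_rel C _)
    obtain ⟨KB, hcB, hKBf, hKB⟩ := hD ((N.comap pE).map D.subtype) (Subgroup.map_subtype_le _)
      (map_rel D _)
    have hnA : KA.Normal := inferInstance
    have hnB : KB.Normal := inferInstance
    obtain ⟨K1, hc1, hf1, hK1⟩ := hGAD k l w hw.1 KB hnB hKBf
    have hfin : Finite (F k ⧸ KA) := inferInstance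
    have hfc := core_fin (k + l) (F k ⧸ KA)
    refine ⟨K1 ⊓ core (k + l) (F k ⧸ KA), char_inf hc1 (core_char _ _), inferInstance, ?_⟩
    intro φ hφP hφ
    obtain ⟨σ, hσ, τ, hτ, h1, h2⟩ := (hP φ).1 hφP
    have tA : Triv KA σ := by
      intro x
      have h3 := mem_core.1 (hφ (iA k l x)).2 ((QuotientGroup.mk' KA).comp (rt k l))
      rw [h1, ← map_inv, ← map_mul, MonoidHom.comp_apply, rt_A] at h3
      exact (QuotientGroup.eq_one_iff _).1 h3
    have tB : Triv KB τ := by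
      intro y
      have h3 := (hφ (ew l w y)).1
      rw [h2, ← map_inv, ← map_mul] at h3
      exact hK1 _ h3
    obtain ⟨c, hc, hcσ⟩ := hKA σ hσ tA
    obtain ⟨d, hd, hdτ⟩ := hKB τ hτ tB
    have e1 : pA c ∈ N := hc
    have e2 : pE d ∈ N := hd
    have e3 := hNV _ (N.mul_mem e1 e2)
    have e4 : ((pA c * pE d : P) : MulAut (F (k + l))) = PA k l c.1 * PE l w D hDt d := rfl
    have hcσ' : c.1 = σ := hcσ
    have hdτ' : d.1 = τ := hdτ
    rw [hdec φ σ d hσ h1 (fun y => by rw [hdτ']; exact h2 y), ← hcσ']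
    rw [e4] at e3
    exact e3
  · intro L hLn hLf
    obtain ⟨K, hcK, hfK, hKL, hK⟩ := hCW (k + l) (iA k l w) (notPow_iA hw) L hLn hLf
    refine ⟨K, hcK, hfK, hKL, ?_⟩
    intro φ hφ g hg
    obtain ⟨σ, hσ, τ, hτ, h1, h2⟩ := (hP φ).1 hφ
    have h3 := hg (iA k l w)
    rw [h1, hCw σ hσ] at h3
    have h4 := K.inv_mem h3
    rw [mul_inv_rev, inv_inv] at h4
    obtain ⟨i, hi⟩ := hK g h4
    exact ⟨iA k l w ^ i, ⟨i, rfl⟩, hi⟩
  · rintro _ ⟨i, rfl⟩
    have h1 : MulAut.conj (iA k l w) ∈ P := by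
      refine (hP _).2 ⟨MulAut.conj w, hcC, MulAut.conj (tt l), hcD, fun x => ?_, fun y => ?_⟩
      · rw [MulAut.conj_apply, MulAut.conj_apply, map_mul, map_mul, map_inv]
      · rw [MulAut.conj_apply, MulAut.conj_apply, map_mul, map_mul, map_inv, ew_tt]
    show MulAut.conj (iA k l w ^ i) ∈ P
    rw [map_zpow]
    exact P.zpow_mem h1 i

end Pool.Agent.V5helper91.AS.Ama
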