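import Pool.Agent.V5helper35.AS.StmB

/-!
# Project AS, part 4: the HNN extension (everything except the lifting of automorphisms)
-/

set_option autoImplicit false

namespace Pool.Agent.V5helper91.AS.Hnc

open Pool.Agent.R387.TC Pool.Agent.N77.CS Pool.Agent.N77.CS.ASM Pool.Agent.V5helper35.AS

section

variable {l : ℕ} {w : F l}

theorem ehn_inc (y : F l) : ehn w (inc l y) = inc l y := homExt_inc _ _ _

theorem ehn_tt : ehn w (tt l) = tt l * inc l w * (tt l)⁻¹ := homExt_tt _ _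

/-- the twists -/
def TZ (l : ℕ) (w : F l) : Multiplicative ℤ →* MulAut (F (l + 1)) :=
  autOf (fun j => homExt (inc l) (tt l * inc l w ^ (Multiplicative.toAdd j)))
    (by
      apply hom_ext
      · intro x
        rw [homExt_inc]
        rfl
      · rw [homExt_tt, toAdd_one, zpow_zero, mul_one]
        rfl)
    (by
      intro i j
      apply hom_ext
      · intro x
        rw [homExt_inc, MonoidHom.comp_apply, homExt_inc, homExt_inc]
      · rw [homExt_tt, MonoidHom.comp_apply, homExt_tt, MonoidHom.map_mul, homExt_tt,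
          MonoidHom.map_zpow, homExt_inc, toAdd_mul, zpow_add, mul_assoc])

theorem TZ_inc (j : Multiplicative ℤ) (x : F l) : TZ l w j (inc l x) = inc l x := by
  unfold TZ
  rw [autOf_apply, homExt_inc]

theorem TZ_tt (j : Multiplicative ℤ) :
    TZ l w j (tt l) = tt l * inc l w ^ (Multiplicative.toAdd j) := by
  unfold TZ
  rw [autOf_apply, homExt_tt]

theorem TZ_ehn (j : Multiplicative ℤ) (y : F (l + 1)) : TZ l w j (ehn w y) = ehn w y := by
  have h : (TZ l w j).toMonoidHom.comp (ehn w) = ehn w := by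
    apply hom_ext
    · intro y
      show TZ l w j (ehn w (inc l y)) = ehn w (inc l y)
      rw [ehn_inc, TZ_inc]
    · show TZ l w j (ehn w (tt l)) = ehn w (tt l)
      rw [ehn_tt, map_mul, map_mul, map_inv, TZ_inc, TZ_tt]
      group
  exact DFunLike.congr_fun h y

theorem notPow_inc (hw : NotPow w) : NotPow (inc l w) := by
  refine ⟨fun h => hw.1 ?_, fun v j h => hw.2 (homExt (MonoidHom.id _) 1 v) j ?_⟩
  · have h1 := congrArg (homExt (MonoidHom.id (F l)) 1) h
    rwa [homExt_inc, map_one] at h1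
  · have h1 := congrArg (homExt (MonoidHom.id (F l)) 1) h
    rwa [homExt_inc, map_zpow] at h1

theorem notPow_conj {n : ℕ} {u : F n} (hu : NotPow u) (g : F n) : NotPow (g * u * g⁻¹) := by
  refine ⟨fun h => hu.1 ?_, fun v j h => hu.2 (g⁻¹ * v * g⁻¹⁻¹) j ?_⟩
  · have h1 : u = g⁻¹ * (g * u * g⁻¹) * g := by group
    rw [h1, h]
    group
  · rw [conj_zpow, ← h]
    group

/-- an automorphism over the identity is a twist -/
theorem of_fix (hCEN : S_CEN) (hw : NotPow w) (φ : MulAut (F (l + 1)))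
    (h : ∀ y, φ (ehn w y) = ehn w y) : ∃ j : ℤ, φ = TZ l w (Multiplicative.ofAdd j) := by
  have h1 : ∀ x, φ (inc l x) = inc l x := fun x => by
    have h2 := h (inc l x)
    rwa [ehn_inc] at h2
  have h3 := h (tt l)
  rw [ehn_tt, map_mul, map_mul, map_inv, h1] at h3
  obtain ⟨j, hj⟩ := hCEN (l + 1) (inc l w) (notPow_inc hw) ((tt l)⁻¹ * φ (tt l)) (by
    have h4 : (tt l)⁻¹ * φ (tt l) * inc l w =
        (tt l)⁻¹ * (φ (tt l) * inc l w * (φ (tt l))⁻¹) * φ (tt l) := by group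
    rw [h4, h3]
    group)
  refine ⟨j, ?_⟩
  have h5 : φ.toMonoidHom = (TZ l w (Multiplicative.ofAdd j)).toMonoidHom := by
    apply hom_ext
    · intro x
      show φ (inc l x) = TZ l w (Multiplicative.ofAdd j) (inc l x)
      rw [h1, TZ_inc]
    · show φ (tt l) = TZ l w (Multiplicative.ofAdd j) (tt l)
      rw [TZ_tt, toAdd_ofAdd, ← hj]
      group
  ext x
  exact DFunLike.congr_fun h5 x

end

theorem t_core (hGAD : S_GAD2) (hCW : S_CW) (hPOT : S_POT) (hCEN : S_CEN) (l : ℕ)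
    (D : Subgroup (MulAut (F (l + 1)))) (w : F l) (P : Subgroup (MulAut (F (l + 1))))
    (hw : NotPow w) (hC : CongG (l + 1) D) (hDt : ∀ τ ∈ D, τ (tt l) = tt l)
    (hl : ∀ τ ∈ D, ∃ φ : MulAut (F (l + 1)), ∀ y, φ (ehn w y) = ehn w (τ y))
    (hcD : MulAut.conj (tt l) ∈ D)
    (hP : ∀ φ, φ ∈ P ↔ ∃ τ ∈ D, ∀ y, φ (ehn w y) = ehn w (τ y)) : OkG (l + 1) P := by
  have hTP : ∀ j, TZ l w j ∈ P := fun j => (hP _).2 ⟨1, D.one_mem, fun y => TZ_ehn j y⟩
  refine ⟨by omega, ?_, Subgroup.zpowers (ehn w (tt l)), ?_, ?_⟩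
  · intro V hVP hV
    have hV' : (V.subgroupOf P).FiniteIndex := ⟨hV⟩
    set N : Subgroup P := (V.subgroupOf P).normalCore with hN
    have hNV : ∀ v : P, v ∈ N → (v : MulAut (F (l + 1))) ∈ V := fun v hv =>
      Subgroup.mem_subgroupOf.1 (Subgroup.normalCore_le _ hv)
    have hNfi : N.FiniteIndex := inferInstance
    have hNn : N.Normal := inferInstance
    have hd0 : N.index ≠ 0 := hNfi.index_ne_zero
    obtain ⟨M, hMc, hMf, hM⟩ := hPOT (l + 1) (inc l w) (notPow_inc hw).1 N.index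
      (Nat.one_le_iff_ne_zero.2 hd0)
    have hMn : M.Normal := inferInstance
    have htf : (trivSub M).FiniteIndex := trivSub_fin M
    let V1 : Subgroup P := N ⊓ (trivSub M).subgroupOf P
    have hV1 : V1.FiniteIndex := inferInstance
    let W : Subgroup (MulAut (F (l + 1))) :=
      { carrier := {τ | τ ∈ D ∧ ∃ φ : P, φ ∈ V1 ∧ ∀ y, φ.1 (ehn w y) = ehn w (τ y)}
        mul_mem' := by
          rintro a b ⟨ha, φ, hφ, h1⟩ ⟨hb, ψ, hψ, h2⟩
          refine ⟨D.mul_mem ha hb, φ * ψ, V1.mul_mem hφ hψ, fun y => ?_⟩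
          rw [Subgroup.coe_mul, MulAut.mul_apply, h2, h1]
          rfl
        one_mem' := ⟨D.one_mem, 1, V1.one_mem, fun y => rfl⟩
        inv_mem' := by
          rintro a ⟨ha, φ, hφ, h1⟩
          refine ⟨D.inv_mem ha, φ⁻¹, V1.inv_mem hφ, fun y => ?_⟩
          have h2 := h1 (a⁻¹ y)
          have h3 : a (a⁻¹ y) = y := MulAut.apply_inv_self _ _ _
          rw [h3] at h2
          rw [← h2]
          exact MulAut.inv_apply_self _ φ.1 _ }
    have hWD : W ≤ D := fun τ hτ => hτ.1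
    have hlP : ∀ τ : D, ∃ φ : P, ∀ y, φ.1 (ehn w y) = ehn w (τ.1 y) := fun τ => by
      obtain ⟨φ, hφ⟩ := hl τ.1 τ.2
      exact ⟨⟨φ, (hP φ).2 ⟨τ.1, τ.2, hφ⟩⟩, hφ⟩
    choose f hf using hlP
    have hWf : W.relIndex D ≠ 0 := by
      have hfin : Finite (P ⧸ V1) := inferInstance
      have hinj : Function.Injective
          (fun q : D ⧸ W.subgroupOf D => (QuotientGroup.mk (f q.out) : P ⧸ V1)) := by
        intro q q' h
        have h1 : (f q.out)⁻¹ * f q'.out ∈ V1 := QuotientGroup.eq.1 h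
        have h2 : (q.out : D)⁻¹ * q'.out ∈ W.subgroupOf D := by
          rw [Subgroup.mem_subgroupOf]
          refine ⟨((q.out : D)⁻¹ * q'.out).2, _, h1, fun y => ?_⟩
          rw [Subgroup.coe_mul, MulAut.mul_apply, hf, Subgroup.coe_inv]
          have h3 := hf q.out ((q.out : D).1⁻¹ (q'.out.1 y))
          rw [MulAut.apply_inv_self] at h3
          rw [← h3, MulAut.inv_apply_self]
          rfl
        have h3 : (QuotientGroup.mk (q.out : D) : D ⧸ W.subgroupOf D) = QuotientGroup.mk q'.out :=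
          QuotientGroup.eq.2 h2
        rwa [QuotientGroup.out_eq', QuotientGroup.out_eq'] at h3
      have hfin' : Finite (D ⧸ W.subgroupOf D) := Finite.of_injective _ hinj
      exact Subgroup.index_ne_zero_of_finite
    obtain ⟨KD, hcD', hKDf, hKD⟩ := hC W hWD hWf
    have hnD : KD.Normal := inferInstance
    obtain ⟨K1, hc1, hf1, hK1⟩ := hGAD l w hw.1 KD hnD hKDf
    refine ⟨K1 ⊓ M, char_inf hc1 hMc, inferInstance, ?_⟩
    intro φ hφP hφ
    obtain ⟨τ, hτ, h1⟩ := (hP φ).1 hφP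
    have tB : Triv KD τ := by
      intro y
      have h3 := (hφ (ehn w y)).1
      rw [h1, ← map_inv, ← map_mul] at h3
      exact hK1 _ h3
    obtain ⟨_, φ1, hφ1, h2⟩ := hKD τ hτ tB
    have h3 : ∀ y, (φ1.1⁻¹ * φ) (ehn w y) = ehn w y := fun y => by
      rw [MulAut.mul_apply, h1, ← h2]
      exact MulAut.inv_apply_self _ φ1.1 _
    obtain ⟨j, hj⟩ := of_fix hCEN hw _ h3
    have h4 : φ1.1⁻¹ * φ ∈ trivSub M := by
      refine (trivSub M).mul_mem ((trivSub M).inv_mem ?_) ?_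
      · exact Subgroup.mem_subgroupOf.1 hφ1.2
      · exact fun x => (hφ x).2
    have h5 : (φ1.1⁻¹ * φ) (tt l) * (tt l)⁻¹ ∈ M := h4 (tt l)
    rw [hj, TZ_tt, toAdd_ofAdd] at h5
    have h6 : inc l w ^ j ∈ M := by
      have h7 := hMn.conj_mem _ h5 (tt l)⁻¹
      have h8 : (tt l)⁻¹ * (tt l * inc l w ^ j * (tt l)⁻¹) * (tt l)⁻¹⁻¹ = inc l w ^ j := by group
      rwa [h8] at h7
    obtain ⟨m, hm⟩ := hM j h6
    have h9 : (⟨TZ l w (Multiplicative.ofAdd j), hTP _⟩ : P) ∈ N := by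
      have e1 : (⟨TZ l w (Multiplicative.ofAdd j), hTP _⟩ : P) =
          (⟨TZ l w (Multiplicative.ofAdd m), hTP _⟩ : P) ^ N.index := by
        apply Subtype.ext
        rw [Subgroup.coe_pow]
        show TZ l w (Multiplicative.ofAdd j) = TZ l w (Multiplicative.ofAdd m) ^ N.index
        rw [← map_pow, ← ofAdd_nsmul, nsmul_eq_mul, hm]
      rw [e1]
      exact Subgroup.pow_index_mem _ _
    have h10 := hNV _ (N.mul_mem hφ1.1 h9)
    have h11 : ((φ1 * ⟨TZ l w (Multiplicative.ofAdd j), hTP _⟩ : P) : MulAut (F (l + 1))) = φ := by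
      show φ1.1 * TZ l w (Multiplicative.ofAdd j) = φ
      rw [← hj, mul_inv_cancel_left]
    rwa [h11] at h10
  · intro L hLn hLf
    obtain ⟨K, hcK, hfK, hKL, hK⟩ := hCW (l + 1) (ehn w (tt l))
      (by rw [ehn_tt]; exact notPow_conj (notPow_inc hw) _) L hLn hLf
    refine ⟨K, hcK, hfK, hKL, ?_⟩
    intro φ hφ g hg
    obtain ⟨τ, hτ, h2⟩ := (hP φ).1 hφ
    have h3 := hg (ehn w (tt l))
    rw [h2, hDt τ hτ] at h3
    have h4 := K.inv_mem h3
    rw [mul_inv_rev, inv_inv] at h4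
    obtain ⟨i, hi⟩ := hK g h4
    exact ⟨ehn w (tt l) ^ i, ⟨i, rfl⟩, hi⟩
  · rintro _ ⟨i, rfl⟩
    have h1 : MulAut.conj (ehn w (tt l)) ∈ P := by
      refine (hP _).2 ⟨MulAut.conj (tt l), hcD, fun y => ?_⟩
      rw [MulAut.conj_apply, MulAut.conj_apply, map_mul, map_mul, map_inv]
    show MulAut.conj (ehn w (tt l) ^ i) ∈ P
    rw [map_zpow]
    exact P.zpow_mem h1 i

end Pool.Agent.V5helper91.AS.Hnc
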